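import Mathlib

set_option autoImplicit false

/-!
# Boundaries of cocompact ccc-bicombable spaces are never a single point

We formalise geodesic bicombings (continuous selections of constant speed geodesics), the
consistency and conicality conditions, the boundary at infinity `∂_σ X` of a bicombing `σ`, and
prove: if `X` is proper, `σ` is a consistent conical (ccc) bicombing on `X`, and some group acts on
`X` by isometries with compact quotient space, then `∂_σ X` is empty or has at least two points.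
-/

namespace Pool.Agent.Results.MP_1cfa3b_gt.TwoPoints

open Filter Topology
open scoped NNReal

universe u v

/-- A geodesic bicombing on a metric space `X`: a continuous map `σ : X × X × [0,1] → X` such that
each `σ x y` is a constant speed geodesic from `x` to `y`. -/
structure IsGeodesicBicombing {X : Type u} [MetricSpace X] (σ : X → X → unitInterval → X) : Prop where
  continuous : Continuous (fun p : X × X × unitInterval => σ p.1 p.2.1 p.2.2)
  source : ∀ x y : X, σ x y 0 = x
  target : ∀ x y : X, σ x y 1 = y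
  constant_speed : ∀ (x y : X) (s t : unitInterval), dist (σ x y s) (σ x y t) = |(s : ℝ) - t| * dist x y

/-- Consistency: the image of the `σ`-geodesic between two points of a `σ`-geodesic is the
corresponding piece of that `σ`-geodesic. -/
def IsConsistent {X : Type u} [MetricSpace X] (σ : X → X → unitInterval → X) : Prop :=
  ∀ (x y : X) (s t : unitInterval), s < t →
    Set.range (σ (σ x y s) (σ x y t)) = σ x y '' Set.Icc s t

/-- Conicality. -/
def IsConical {X : Type u} [MetricSpace X] (σ : X → X → unitInterval → X) : Prop :=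
  ∀ (x y x' y' : X) (t : unitInterval),
    dist (σ x y t) (σ x' y' t) ≤ (1 - (t : ℝ)) * dist x x' + (t : ℝ) * dist y y'

/-- A ccc bicombing: a consistent and conical geodesic bicombing. -/
structure IsCCC {X : Type u} [MetricSpace X] (σ : X → X → unitInterval → X) : Prop where
  bicombing : IsGeodesicBicombing σ
  consistent : IsConsistent σ
  conical : IsConical σ

/-- A `σ`-ray: a (unit speed) geodesic ray `[0, ∞) → X` whose restriction to each `[0, s]`, `s > 0`,
is the reparametrised `σ`-geodesic from `ξ 0` to `ξ s`. -/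
structure SigmaRay {X : Type u} [MetricSpace X] (σ : X → X → unitInterval → X) : Type u where
  toFun : ℝ≥0 → X
  isometry : ∀ s t : ℝ≥0, dist (toFun s) (toFun t) = |(s : ℝ) - t|
  sigma : ∀ s : ℝ≥0, 0 < s → ∀ t : unitInterval,
    toFun (unitInterval.toNNReal t * s) = σ (toFun 0) (toFun s) t

/-- Two `σ`-rays are asymptotic if they stay at bounded distance. -/
def asymptotic {X : Type u} [MetricSpace X] (σ : X → X → unitInterval → X) (ξ η : SigmaRay σ) : Prop :=
  ∃ C : ℝ, ∀ t : ℝ≥0, dist (ξ.toFun t) (η.toFun t) ≤ C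

/-- Being asymptotic is an equivalence relation on `σ`-rays. -/
def raySetoid {X : Type u} [MetricSpace X] (σ : X → X → unitInterval → X) : Setoid (SigmaRay σ) where
  r := asymptotic σ
  iseqv :=
    { refl := fun ξ => ⟨0, fun t => by simp⟩
      symm := fun {ξ η} ⟨C, hC⟩ => ⟨C, fun t => by rw [dist_comm]; exact hC t⟩
      trans := fun {ξ η ζ} ⟨C, hC⟩ ⟨D, hD⟩ => ⟨C + D, fun t =>
        (dist_triangle _ (η.toFun t) _).trans (add_le_add (hC t) (hD t))⟩ }

/-- The boundary at infinity `∂_σ X`: equivalence classes of asymptotic `σ`-rays. -/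
def Boundary {X : Type u} [MetricSpace X] (σ : X → X → unitInterval → X) : Type u :=
  Quotient (raySetoid σ)

section

variable {X : Type u} [MetricSpace X] {σ : X → X → unitInterval → X}

theorem consistent_apply (hσ : IsCCC σ) (x y : X) (τ u : unitInterval) :
    σ x (σ x y τ) u = σ x y (u * τ) := by
  have hs := hσ.bicombing.constant_speed
  have h0 := hσ.bicombing.source
  rcases eq_or_lt_of_le (unitInterval.nonneg' (t := τ)) with h | h
  · rw [← h, mul_zero, h0]
    have := hs x x 0 u
    rw [dist_self, mul_zero, h0] at this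
    exact (dist_eq_zero.mp this).symm
  · have hc := hσ.consistent x y 0 τ h
    rw [h0] at hc
    have hmem : σ x (σ x y τ) u ∈ σ x y '' Set.Icc 0 τ := by
      rw [← hc]; exact ⟨u, rfl⟩
    obtain ⟨v, hv, hv'⟩ := hmem
    rw [← hv']
    have h1 : dist x (σ x (σ x y τ) u) = (u : ℝ) * ((τ : ℝ) * dist x y) := by
      have e1 := hs x (σ x y τ) 0 u
      have e2 := hs x y 0 τ
      rw [h0] at e1 e2
      rw [e1, e2]
      simp [abs_of_nonneg u.2.1, abs_of_nonneg τ.2.1]
    have h2 : dist x (σ x y v) = (v : ℝ) * dist x y := by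
      have e1 := hs x y 0 v
      rw [h0] at e1
      rw [e1]
      simp [abs_of_nonneg v.2.1]
    rw [hv', h1] at h2
    have h3 : dist (σ x y v) (σ x y (u * τ)) = 0 := by
      rw [hs]
      have : ((v : ℝ) - ((u * τ : unitInterval) : ℝ)) * dist x y = 0 := by
        rw [Set.Icc.coe_mul, sub_mul, ← h2]; ring
      rw [← abs_of_nonneg (dist_nonneg (x := x) (y := y)), ← abs_mul, this, abs_zero]
    exact dist_eq_zero.mp h3

/-- Two asymptotic `σ`-rays from the same point agree. -/
theorem ray_unique (hσ : IsCCC σ) (ξ η : SigmaRay σ) (h0 : ξ.toFun 0 = η.toFun 0)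
    (h : asymptotic σ ξ η) (r : ℝ≥0) : ξ.toFun r = η.toFun r := by
  obtain ⟨C, hC⟩ := h
  have key : ∀ s : ℝ≥0, 0 < s → r ≤ s → dist (ξ.toFun r) (η.toFun r) ≤ (r : ℝ) / s * C := by
    intro s hs hrs
    have hs' : (0 : ℝ) < s := by exact_mod_cast hs
    have hrs' : (r : ℝ) ≤ s := by exact_mod_cast hrs
    let t : unitInterval := ⟨(r : ℝ) / s, by positivity, by rw [div_le_one hs']; exact hrs'⟩
    have hr : unitInterval.toNNReal t * s = r := by
      apply NNReal.eq
      show (r : ℝ) / s * s = r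
      field_simp
    have e1 := ξ.sigma s hs t
    have e2 := η.sigma s hs t
    rw [hr] at e1 e2
    rw [e1, e2]
    refine (hσ.conical _ _ _ _ t).trans ?_
    rw [h0, dist_self, mul_zero, zero_add]
    exact mul_le_mul_of_nonneg_left (hC s) t.2.1
  have hlim : Tendsto (fun n : ℕ => (r : ℝ) / ((n : ℝ) + 1) * C) atTop (𝓝 0) := by
    have h1 : Tendsto (fun n : ℕ => (r : ℝ) / ((n : ℝ) + 1)) atTop (𝓝 0) :=
      Tendsto.div_atTop tendsto_const_nhds
        (tendsto_atTop_add_const_right _ _ tendsto_natCast_atTop_atTop)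
    simpa using h1.mul_const C
  have hle : dist (ξ.toFun r) (η.toFun r) ≤ 0 := by
    refine ge_of_tendsto hlim ?_
    filter_upwards [eventually_ge_atTop (Nat.ceil (r : ℝ))] with n hn
    have h1 : (r : ℝ) ≤ n := Nat.ceil_le.mp hn
    have h2 := key ((n : ℝ≥0) + 1) (by positivity) (by
      have : (r : ℝ) ≤ (((n : ℝ≥0) + 1 : ℝ≥0) : ℝ) := by push_cast; linarith
      exact_mod_cast this)
    simpa using h2
  exact dist_le_zero.mp hle

/-- Existence of limits along an ultrafilter of a sequence in a closed ball of a proper space. -/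
theorem exists_ulim [ProperSpace X] (U : Ultrafilter ℕ) (p : ℕ → X) (o : X) (R : ℝ)
    (h : ∀ n, dist (p n) o ≤ R) : ∃ a, Tendsto p U (𝓝 a) := by
  have hc := isCompact_closedBall o R
  have h1 : (U.map p : Filter X) ≤ 𝓟 (Metric.closedBall o R) := by
    rw [le_principal_iff]
    exact Filter.mem_map.mpr (Filter.Eventually.of_forall h)
  obtain ⟨a, _, ha⟩ := hc.ultrafilter_le_nhds (U.map p) h1
  exact ⟨a, ha⟩

/-- Given points `c k` at distance `k` from `o`, limits of the `σ`-geodesics from `o` to `c k`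
form a `σ`-ray from `o`. -/
theorem limit_ray [ProperSpace X] (hσ : IsCCC σ) (U : Ultrafilter ℕ) (hU : (U : Filter ℕ) ≤ atTop)
    (o : X) (c : ℕ → X) (hc : ∀ k, dist o (c k) = k) :
    ∃ η : SigmaRay σ, η.toFun 0 = o ∧ ∀ r : ℝ≥0,
      Tendsto (fun k : ℕ => σ o (c k) (Set.projIcc 0 1 zero_le_one ((r : ℝ) / k)))
        U (𝓝 (η.toFun r)) := by
  have hs := hσ.bicombing.constant_speed
  have h0 := hσ.bicombing.source
  -- the approximating points
  have hbd : ∀ (r : ℝ≥0) (k : ℕ),
      dist (σ o (c k) (Set.projIcc 0 1 zero_le_one ((r : ℝ) / k))) o ≤ r := by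
    intro r k
    have e1 := hs o (c k) 0 (Set.projIcc 0 1 zero_le_one ((r : ℝ) / k))
    rw [h0, dist_comm] at e1
    rw [e1, hc]
    rcases Nat.eq_zero_or_pos k with hk | hk
    · subst hk; simp
    · have hk' : (0 : ℝ) < k := by exact_mod_cast hk
      have h2 : |((0 : unitInterval) : ℝ) - (Set.projIcc (0 : ℝ) 1 zero_le_one ((r : ℝ) / k) : unitInterval)| ≤
          (r : ℝ) / k := by
        rw [Set.Icc.coe_zero, zero_sub, abs_neg,
          abs_of_nonneg (Set.projIcc (0 : ℝ) 1 zero_le_one ((r : ℝ) / k)).2.1]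
        rw [Set.coe_projIcc]
        refine max_le (by positivity) (min_le_right _ _)
      calc _ ≤ (r : ℝ) / k * k := mul_le_mul_of_nonneg_right h2 hk'.le
        _ = r := by field_simp
  have hex : ∀ r : ℝ≥0, ∃ a,
      Tendsto (fun k : ℕ => σ o (c k) (Set.projIcc 0 1 zero_le_one ((r : ℝ) / k))) U (𝓝 a) :=
    fun r => exists_ulim U _ o r (hbd r)
  choose η hη using hex
  have hev : ∀ r : ℝ, ∀ᶠ k : ℕ in (U : Filter ℕ), r ≤ k ∧ (0 : ℝ) < k := by
    intro r
    refine hU ?_
    filter_upwards [eventually_ge_atTop (Nat.ceil r), eventually_ge_atTop 1] with k h1 h2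
    exact ⟨Nat.ceil_le.mp h1, by exact_mod_cast h2⟩
  have hproj : ∀ (r : ℝ≥0) (k : ℕ), (r : ℝ) ≤ k → (0 : ℝ) < k →
      ((Set.projIcc (0 : ℝ) 1 zero_le_one ((r : ℝ) / k) : unitInterval) : ℝ) = (r : ℝ) / k := by
    intro r k h1 h2
    rw [Set.projIcc_of_mem zero_le_one ⟨by positivity, by rw [div_le_one h2]; exact h1⟩]
  have hzero : η 0 = o := by
    have h1 : Tendsto (fun k : ℕ => σ o (c k) (Set.projIcc 0 1 zero_le_one (((0 : ℝ≥0) : ℝ) / k)))
        U (𝓝 o) := by
      have : (fun k : ℕ => σ o (c k) (Set.projIcc 0 1 zero_le_one (((0 : ℝ≥0) : ℝ) / k))) =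
          fun _ => o := by
        funext k
        simp [h0]
      rw [this]
      exact tendsto_const_nhds
    exact tendsto_nhds_unique (hη 0) h1
  refine ⟨⟨η, ?_, ?_⟩, hzero, hη⟩
  · intro s t
    have h1 := (hη s).dist (hη t)
    have h2 : Tendsto (fun k : ℕ =>
        dist (σ o (c k) (Set.projIcc 0 1 zero_le_one ((s : ℝ) / k)))
          (σ o (c k) (Set.projIcc 0 1 zero_le_one ((t : ℝ) / k)))) U (𝓝 |(s : ℝ) - t|) := by
      refine tendsto_const_nhds.congr' ?_
      filter_upwards [hev s, hev t] with k hk hk'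
      rw [hs, hproj s k hk.1 hk.2, hproj t k hk'.1 hk.2, hc, ← sub_div, abs_div,
        abs_of_pos hk.2]
      have := hk.2.ne'
      field_simp
    exact tendsto_nhds_unique h1 h2
  · intro s hs0 t
    rw [hzero]
    have h1 := hη (unitInterval.toNNReal t * s)
    have h2 : Tendsto (fun k : ℕ =>
        σ o (σ o (c k) (Set.projIcc 0 1 zero_le_one ((s : ℝ) / k))) t) U (𝓝 (σ o (η s) t)) := by
      have hcont : Continuous (fun x : X => σ o x t) :=
        hσ.bicombing.continuous.comp (by fun_prop : Continuous (fun x : X => (o, x, t)))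
      exact (hcont.tendsto _).comp (hη s)
    refine tendsto_nhds_unique h1 (h2.congr' ?_)
    filter_upwards [hev s] with k hk
    rw [consistent_apply hσ]
    congr 1
    apply Subtype.ext
    rw [Set.Icc.coe_mul, hproj s k hk.1 hk.2, hproj _ k _ hk.2]
    · show (t : ℝ) * ((s : ℝ) / k) = (t : ℝ) * s / k
      ring
    · show (t : ℝ) * s ≤ k
      have h3 : (t : ℝ) * s ≤ 1 * s := mul_le_mul_of_nonneg_right t.2.2 s.2
      linarith [hk.1]

/-- An isometrically embedded line produces two different boundary points. -/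
theorem line_two [ProperSpace X] (hσ : IsCCC σ) (c : ℝ → X)
    (hc : ∀ s t, dist (c s) (c t) = |s - t|) :
    ∃ ξ η : SigmaRay σ, ¬ asymptotic σ ξ η := by
  set U : Ultrafilter ℕ := Filter.hyperfilter ℕ with hUdef
  have hU : (U : Filter ℕ) ≤ atTop := Nat.hyperfilter_le_atTop
  have hs := hσ.bicombing.constant_speed
  obtain ⟨ξ, hξ0, hξ⟩ := limit_ray hσ U hU (c 0) (fun k => c k) (fun k => by
    rw [hc]; simp)
  obtain ⟨η, hη0, hη⟩ := limit_ray hσ U hU (c 0) (fun k => c (-(k : ℝ))) (fun k => by
    rw [hc]; simp)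
  refine ⟨ξ, η, fun h => ?_⟩
  have heq := ray_unique hσ ξ η (by rw [hξ0, hη0]) h 1
  have h1 := (hξ 1).dist (hη 1)
  rw [heq, dist_self] at h1
  have h2 : ∀ᶠ k : ℕ in (U : Filter ℕ), (2 : ℝ) ≤
      dist (σ (c 0) (c k) (Set.projIcc 0 1 zero_le_one (((1 : ℝ≥0) : ℝ) / k)))
        (σ (c 0) (c (-(k : ℝ))) (Set.projIcc 0 1 zero_le_one (((1 : ℝ≥0) : ℝ) / k))) := by
    refine hU ?_
    filter_upwards [eventually_ge_atTop 1] with k hk
    have hk1 : (1 : ℝ) ≤ k := by exact_mod_cast hk
    have hk0 : (0 : ℝ) < k := by linarith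
    have hp : ((Set.projIcc (0 : ℝ) 1 zero_le_one (((1 : ℝ≥0) : ℝ) / k) : unitInterval) : ℝ) =
        1 / (k : ℝ) := by
      rw [Set.projIcc_of_mem zero_le_one ⟨by positivity, by
        rw [div_le_one hk0]; exact_mod_cast hk⟩]
      simp
    have e1 := hs (c 0) (c k) (Set.projIcc 0 1 zero_le_one (((1 : ℝ≥0) : ℝ) / k)) 1
    have e2 := hs (c 0) (c (-(k : ℝ))) (Set.projIcc 0 1 zero_le_one (((1 : ℝ≥0) : ℝ) / k)) 1
    rw [hσ.bicombing.target, hp, hc] at e1 e2
    have hk2 : (1 : ℝ) / k ≤ 1 := by rw [div_le_one hk0]; exact hk1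
    have e3 : |(1 : ℝ) / k - ((1 : unitInterval) : ℝ)| * |0 - (k : ℝ)| = k - 1 := by
      rw [Set.Icc.coe_one, abs_of_nonpos (by linarith), zero_sub, abs_neg, abs_of_pos hk0]
      field_simp
      ring
    have e4 : |(1 : ℝ) / k - ((1 : unitInterval) : ℝ)| * |0 - -(k : ℝ)| = k - 1 := by
      rw [Set.Icc.coe_one, abs_of_nonpos (by linarith), sub_neg_eq_add, zero_add, abs_of_pos hk0]
      field_simp
      ring
    rw [e3] at e1
    rw [e4] at e2
    have e5 : dist (c k) (c (-(k : ℝ))) = 2 * k := by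
      rw [hc, sub_neg_eq_add, abs_of_pos (by linarith)]; ring
    have t1 := dist_triangle4 (c k)
      (σ (c 0) (c k) (Set.projIcc 0 1 zero_le_one (((1 : ℝ≥0) : ℝ) / k)))
      (σ (c 0) (c (-(k : ℝ))) (Set.projIcc 0 1 zero_le_one (((1 : ℝ≥0) : ℝ) / k)))
      (c (-(k : ℝ)))
    rw [dist_comm (c k) (σ (c 0) (c k) _), e1, e2, e5] at t1
    linarith
  have h3 := ge_of_tendsto h1 h2
  linarith

/-- Cocompactness gives uniform control of orbits. -/
theorem cocompact_bound {G : Type v} [Group G] [MulAction G X] [IsIsometricSMul G X]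
    [CompactSpace (MulAction.orbitRel.Quotient G X)] (o : X) :
    ∃ R : ℝ, ∀ x : X, ∃ g : G, dist (g • x) o ≤ R := by
  have hopen : ∀ n : ℕ, IsOpen ((Quotient.mk (MulAction.orbitRel G X)) '' Metric.ball o n) :=
    fun n => isOpenMap_quotient_mk'_mul _ Metric.isOpen_ball
  have hcov : (Set.univ : Set (MulAction.orbitRel.Quotient G X)) ⊆
      ⋃ n : ℕ, (Quotient.mk (MulAction.orbitRel G X)) '' Metric.ball o n := by
    intro q _
    induction q using Quotient.inductionOn with
    | h x =>
      obtain ⟨n, hn⟩ := exists_nat_gt (dist x o)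
      exact Set.mem_iUnion.mpr ⟨n, x, hn, rfl⟩
  have hdir : Directed (· ⊆ ·) (fun n : ℕ =>
      (Quotient.mk (MulAction.orbitRel G X)) '' Metric.ball o n) := by
    apply Monotone.directed_le
    intro m n hmn
    exact Set.image_mono (Metric.ball_subset_ball (by exact_mod_cast hmn))
  obtain ⟨n, hn⟩ := (isCompact_univ (X := MulAction.orbitRel.Quotient G X)).elim_directed_cover
    _ hopen hcov hdir
  refine ⟨n, fun x => ?_⟩
  obtain ⟨y, hy, hyx⟩ := hn (Set.mem_univ (Quotient.mk (MulAction.orbitRel G X) x))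
  have hrel : (MulAction.orbitRel G X) y x := Quotient.exact hyx
  obtain ⟨g, hg⟩ := hrel
  refine ⟨g, ?_⟩
  have : g • x = y := hg
  rw [this]
  exact (Metric.mem_ball.mp hy).le

/-- A ray in a cocompact proper space can be translated to a line. -/
theorem exists_line [ProperSpace X] {G : Type v} [Group G] [MulAction G X] [IsIsometricSMul G X]
    [CompactSpace (MulAction.orbitRel.Quotient G X)] (ξ : ℝ≥0 → X)
    (hξ : ∀ s t : ℝ≥0, dist (ξ s) (ξ t) = |(s : ℝ) - t|) :
    ∃ c : ℝ → X, ∀ s t, dist (c s) (c t) = |s - t| := by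
  obtain ⟨R, hR⟩ := cocompact_bound (G := G) (ξ 0)
  choose g hg using fun n : ℕ => hR (ξ n)
  set U : Ultrafilter ℕ := Filter.hyperfilter ℕ with hUdef
  have hU : (U : Filter ℕ) ≤ atTop := Nat.hyperfilter_le_atTop
  have hex : ∀ t : ℝ, ∃ a, Tendsto (fun n : ℕ => g n • ξ (Real.toNNReal ((n : ℝ) + t))) U (𝓝 a) := by
    intro t
    refine exists_ulim U _ (ξ 0) (|t| + R) (fun n => ?_)
    refine (dist_triangle _ (g n • ξ n) _).trans (add_le_add ?_ (hg n))
    rw [dist_smul, hξ]
    rw [Real.coe_toNNReal']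
    rcases le_total ((n : ℝ) + t) 0 with h | h
    · rw [max_eq_right h]
      have hn : (0 : ℝ) ≤ n := Nat.cast_nonneg n
      have : |(0 : ℝ) - ((n : ℝ≥0) : ℝ)| = n := by
        simp
      rw [this]
      have := neg_le_abs t
      linarith
    · rw [max_eq_left h]
      simp
  choose c hc using hex
  refine ⟨c, fun s t => ?_⟩
  have h1 := (hc s).dist (hc t)
  refine tendsto_nhds_unique h1 (tendsto_const_nhds.congr' ?_)
  refine hU ?_
  filter_upwards [eventually_ge_atTop (Nat.ceil (-s)), eventually_ge_atTop (Nat.ceil (-t))]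
    with n hn hn'
  have h2 : -s ≤ n := Nat.ceil_le.mp hn
  have h3 : -t ≤ n := Nat.ceil_le.mp hn'
  rw [dist_smul, hξ, Real.coe_toNNReal _ (by linarith), Real.coe_toNNReal _ (by linarith)]
  congr 1
  ring

end

/-- Let `X` be a proper metric space with a ccc bicombing `σ`, and let a group `G` act on `X` by
isometries with compact quotient `G \ X`. Then the boundary `∂_σ X` is empty or has at least two
points. In particular it never consists of exactly one point. -/
theorem result (X : Type u) [MetricSpace X] [ProperSpace X] (σ : X → X → unitInterval → X) (hσ : IsCCC σ)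
    (G : Type v) [Group G] [MulAction G X] [IsIsometricSMul G X]
    [CompactSpace (MulAction.orbitRel.Quotient G X)] :
    IsEmpty (Boundary σ) ∨ Nontrivial (Boundary σ) := by
  rcases isEmpty_or_nonempty (Boundary σ) with h | h
  · exact Or.inl h
  · right
    obtain ⟨p⟩ := h
    induction p using Quotient.inductionOn with
    | h ξ =>
      obtain ⟨c, hc⟩ := exists_line (G := G) ξ.toFun ξ.isometry
      obtain ⟨ζ, η, hne⟩ := line_two hσ c hc
      exact ⟨Quotient.mk _ ζ, Quotient.mk _ η, fun h => hne (Quotient.exact h)⟩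

end Pool.Agent.Results.MP_1cfa3b_gt.TwoPoints
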